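import Mathlib
import Pool.Agent.H20.Ind2

set_option autoImplicit false

namespace Pool.Agent.Results.MP_271f8e_al.NotCM

open Pool.Agent.H20.IndDef

theorem result (k : Type) [Field k] [IsAlgClosed k] (p : ℕ) [Fact p.Prime] [CharP k p] :
    ∃ (R : Type) (_ : CommRing R) (_ : Algebra k R) (ρ : Bor k →* (R ≃ₐ[k] R)),
      IsRational ρ ∧ IsCM R ∧ ¬ IsCM (ind ρ) :=
  ⟨Pool.Agent.H20.Ind2.RR k, inferInstance, inferInstance, Pool.Agent.H20.Ind2.rho,
    Pool.Agent.H20.Ind2.rho_rat, Pool.Agent.H20.Ind2.RR_CM, Pool.Agent.H20.Ind2.main⟩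

end Pool.Agent.Results.MP_271f8e_al.NotCM
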